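import Pool.Agent.Helper70.OB.GoalsE

/-!
# Packet EV-ECT (project EV, MP_91ee6f_gt)
-/

set_option autoImplicit false

namespace Pool.Agent.Helper30.OB

open MeasureTheory Set Metric Filter
open scoped Topology
open Pool.Agent.Helper70.OB

/-- local extrema on a half line -/
theorem extr_half {f : ℝ → ℝ} {u : ℝ} (hc : ContinuousOn f (Ici u)) (hu : f u = 0)
    (hl : Tendsto f atTop (𝓝 0)) : ∃ c, u < c ∧ IsLocalExtr f c := by
  -- the positive case
  have key : ∀ g : ℝ → ℝ, ContinuousOn g (Ici u) → g u = 0 → Tendsto g atTop (𝓝 0) →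
      ∀ r0, u < r0 → 0 < g r0 → ∃ c, u < c ∧ IsLocalMax g c := by
    intro g gc gu gl r0 hr0 hpos
    have h1 : ∀ᶠ r in atTop, g r < g r0 := gl.eventually (gt_mem_nhds hpos)
    obtain ⟨M, hM⟩ := (h1.and (eventually_gt_atTop r0)).exists
    have huM : u ≤ M := (hr0.trans hM.2).le
    obtain ⟨c, hcI, hmax⟩ := isCompact_Icc.exists_isMaxOn (s := Icc u M) ⟨u, left_mem_Icc.2 huM⟩
      (gc.mono Icc_subset_Ici_self)
    have hge : g r0 ≤ g c := hmax ⟨hr0.le, hM.2.le⟩
    have hcu : c ≠ u := by
      intro h; rw [h, gu] at hge; linarith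
    have hcM : c ≠ M := by
      intro h; rw [h] at hge; linarith [hM.1]
    have hc1 : u < c := lt_of_le_of_ne hcI.1 (Ne.symm hcu)
    have hc2 : c < M := lt_of_le_of_ne hcI.2 hcM
    exact ⟨c, hc1, hmax.isLocalMax (Icc_mem_nhds hc1 hc2)⟩
  by_cases h0 : ∀ r, u < r → f r = 0
  · refine ⟨u + 1, by linarith, Or.inl ?_⟩
    have : ∀ᶠ r in 𝓝 (u + 1), u < r := lt_mem_nhds (by linarith)
    filter_upwards [this] with r hr
    rw [h0 r hr, h0 (u + 1) (by linarith)]
  · push Not at h0
    obtain ⟨r0, hr0, hne⟩ := h0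
    rcases lt_or_gt_of_ne hne with h | h
    · obtain ⟨c, h1, h2⟩ := key (fun r => -f r) hc.neg (by simp [hu]) (by simpa using hl.neg) r0 hr0
        (by simpa using h)
      refine ⟨c, h1, Or.inl ?_⟩
      filter_upwards [h2] with r hr
      linarith
    · obtain ⟨c, h1, h2⟩ := key f hc hu hl r0 hr0 h
      exact ⟨c, h1, Or.inr h2⟩

theorem ect : EZK → ECT := by
  intro hEZK k K L V P hE d D b F hT q hZ
  have hb := hT.pos
  have hk1 : k - 1 < k := by have := hE.two_le; omega
  have hkk : k - 1 + 1 = k := by have := hE.two_le; omega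
  obtain ⟨x, hx, hx2⟩ := hZ
  rcases q with _ | q
  · have := Finset.card_pos.2 hT.ne
    omega
  set N : ℕ := 2 * k - 1 with hN
  set W : ℝ → ℝ := fun r => K r * P (k - 1) r - L r * V (k - 1) r with hW
  have hWc : ∀ r, 0 < r → ContinuousAt W r := by
    intro r hr
    have h1 := (hE.kder r hr).continuousAt
    have h2 := (hE.lder r hr).continuousAt
    have h3 := (hE.vder (k - 1) hk1 r hr).continuousAt
    have h4 : ContinuousAt (P (k - 1)) r := (hE.pcont (k - 1) hk1).continuousAt (Ioi_mem_nhds hr)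
    exact (h1.mul h4).sub (h2.mul h3)
  have hWon : ∀ s : Set ℝ, (∀ r ∈ s, 0 < r) → ContinuousOn W s := fun s hs r hr =>
    (hWc r (hs r hr)).continuousWithinAt
  have hWb : W b = 0 := by
    show K b * P (k - 1) b - L b * V (k - 1) b = 0
    rw [(hT.vb (k - 1) hk1).1, (hT.vb (k - 1) hk1).2]
    ring
  have hWl : Tendsto W atTop (𝓝 0) := hE.wlim (k - 1) hk1
  have hWd : ∀ r, b < r → r ∉ F → HasDerivAt W (-(r ^ N * K r * V k r)) r := by
    intro r hr hrF
    have hr0 : 0 < r := hb.trans hr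
    have h1 := hE.kder r hr0
    have h2 := hE.lder r hr0
    have h3 := hE.vder (k - 1) hk1 r hr0
    have h4 := hT.ptop r hr hrF
    have h5 := (h1.mul h4).sub (h2.mul h3)
    refine h5.congr_deriv ?_
    have : r ^ (2 * k - 1) ≠ 0 := by positivity
    rw [hN]
    field_simp
    ring
  have hWpos : ∀ r, b < r → 0 < r ^ N * K r := fun r hr => by
    have hr0 : 0 < r := hb.trans hr
    have := hE.kpos r hr0
    positivity
  -- local extrema
  have hext : ∀ c, b < c → IsLocalExtr W c → c ∉ F ∧ V k c = 0 := by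
    intro c hc hex
    have hcF : c ∉ F := by
      intro hcF
      obtain ⟨δ0, hδ0, hnear⟩ := hT.near c hcF
      have e1 : ∀ᶠ r in 𝓝 c, |r - c| < δ0 := by
        have := Metric.ball_mem_nhds c hδ0
        filter_upwards [this] with r hr
        rwa [Metric.mem_ball, Real.dist_eq] at hr
      have e2 : ∀ᶠ r in 𝓝 c, r ∉ F.erase c :=
        (F.erase c).finite_toSet.isClosed.isOpen_compl.mem_nhds (by simp)
      have e3 : ∀ᶠ r in 𝓝 c, b < r := lt_mem_nhds hc
      have e4 : ∀ᶠ r in 𝓝 c, b < r ∧ (r ≠ c → r ∉ F ∧ 0 < V k r) := by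
        filter_upwards [e1, e2, e3] with r h1 h2 h3
        refine ⟨h3, fun h4 => ⟨fun h5 => h2 (Finset.mem_erase.2 ⟨h4, h5⟩), hnear r h1 h4⟩⟩
      obtain ⟨δ, hδ, hball⟩ := Metric.eventually_nhds_iff.1 e4
      have hs : ∀ r, |r - c| < δ → r ≠ c → deriv W r < 0 := by
        intro r hr hrc
        obtain ⟨h1, h2⟩ := hball (by rw [Real.dist_eq]; exact hr)
        obtain ⟨h3, h4⟩ := h2 hrc
        rw [(hWd r h1 h3).deriv]
        have := mul_pos (hWpos r h1) h4
        linarith
      have hpos : ∀ r, |r - c| < δ → 0 < r := fun r hr =>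
        hb.trans (hball (by rw [Real.dist_eq]; exact hr)).1
      have hanti : ∀ p s, c - δ < p → s < c + δ → (s ≤ c ∨ c ≤ p) → StrictAntiOn W (Icc p s) := by
        intro p s hp hs' hor
        refine strictAntiOn_of_deriv_neg (convex_Icc p s) (hWon _ fun r hr => hpos r ?_) ?_
        · rw [abs_lt]; constructor <;> linarith [hr.1, hr.2]
        · intro r hr
          rw [interior_Icc] at hr
          refine hs r ?_ ?_
          · rw [abs_lt]; constructor <;> linarith [hr.1, hr.2]
          · rcases hor with h | h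
            · exact ne_of_lt (lt_of_lt_of_le hr.2 h)
            · exact ne_of_gt (lt_of_le_of_lt h hr.1)
      have hleft : ∀ r, c - δ < r → r < c → W c < W r := fun r h1 h2 =>
        hanti r c h1 (by linarith) (Or.inl le_rfl) ⟨le_rfl, h2.le⟩ ⟨h2.le, le_rfl⟩ h2
      have hright : ∀ r, c < r → r < c + δ → W r < W c := fun r h1 h2 =>
        hanti c r (by linarith) h2 (Or.inr le_rfl) ⟨le_rfl, h1.le⟩ ⟨h1.le, le_rfl⟩ h1
      rcases hex with hmin | hmax
      · obtain ⟨ε, hε, h⟩ := Metric.eventually_nhds_iff.1 hmin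
        have h1 := @h (c + min ε δ / 2) (by
          rw [Real.dist_eq]
          have : 0 < min ε δ := lt_min hε hδ
          have h2 := min_le_left ε δ
          rw [abs_lt]; constructor <;> linarith)
        have : 0 < min ε δ := lt_min hε hδ
        have h2 := min_le_right ε δ
        have h3 := hright (c + min ε δ / 2) (by linarith) (by linarith)
        linarith
      · obtain ⟨ε, hε, h⟩ := Metric.eventually_nhds_iff.1 hmax
        have h1 := @h (c - min ε δ / 2) (by
          rw [Real.dist_eq]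
          have : 0 < min ε δ := lt_min hε hδ
          have h2 := min_le_left ε δ
          rw [abs_lt]; constructor <;> linarith)
        have : 0 < min ε δ := lt_min hε hδ
        have h2 := min_le_right ε δ
        have h3 := hleft (c - min ε δ / 2) (by linarith) (by linarith)
        linarith
    refine ⟨hcF, ?_⟩
    have h1 := hex.hasDerivAt_eq_zero (hWd c hc hcF)
    have h2 := hWpos c hc
    have h3 : c ^ N * K c * V k c = 0 := by linarith
    exact (mul_eq_zero.1 h3).resolve_left h2.ne'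
  -- zeros of W
  set x' : Fin (q + 1 + 1) → ℝ := Matrix.vecCons b x with hx'
  have hx'm : StrictMono x' := hx.vecCons (hx2 0).1
  have hx'b : ∀ i, b ≤ x' i := fun i => by
    have : x' 0 = b := rfl
    rw [← this]; exact hx'm.monotone (Fin.zero_le i)
  have hx'V : ∀ i, V (k - 1) (x' i) = 0 := fun i => by
    refine Fin.cases ?_ (fun j => ?_) i
    · exact (hT.vb (k - 1) hk1).1
    · exact (hx2 j).2
  have hq : ∀ i : Fin (q + 1), ∃ z, x' i.castSucc < z ∧ z < x' i.succ ∧ W z = 0 := by
    intro i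
    have hlt : x' i.castSucc < x' i.succ := hx'm Fin.castSucc_lt_succ
    have hd : ∀ r, 0 < r → HasDerivAt (fun r => V (k - 1) r / K r) (W r / (r ^ N * K r ^ 2)) r := by
      intro r hr
      have h1 := hE.kder r hr
      have h3 := hE.vder (k - 1) hk1 r hr
      have hK := (hE.kpos r hr).ne'
      refine (h3.div h1 hK).congr_deriv ?_
      have : r ^ (2 * k - 1) ≠ 0 := by positivity
      show _ = (K r * P (k - 1) r - L r * V (k - 1) r) / _
      rw [hN]
      field_simp
    have hp : ∀ r, x' i.castSucc ≤ r → 0 < r := fun r hr =>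
      lt_of_lt_of_le hb ((hx'b _).trans hr)
    obtain ⟨z, hz, hz2⟩ := exists_hasDerivAt_eq_zero hlt
      (f := fun r => V (k - 1) r / K r) (f' := fun r => W r / (r ^ N * K r ^ 2))
      (fun r hr => (hd r (hp r hr.1)).continuousAt.continuousWithinAt)
      (by
        show V (k - 1) (x' i.castSucc) / K (x' i.castSucc) = V (k - 1) (x' i.succ) / K (x' i.succ)
        rw [hx'V, hx'V, zero_div, zero_div])
      (fun r hr => hd r (hp r hr.1.le))
    refine ⟨z, hz.1, hz.2, ?_⟩
    have hz0 : 0 < z := hp z hz.1.le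
    have h1 : W z / (z ^ N * K z ^ 2) = 0 := hz2
    rw [div_eq_zero_iff] at h1
    have := hE.kpos z hz0
    exact h1.resolve_right (by positivity)
  choose z hz1 hz2 hz3 using hq
  set w : Fin (q + 1 + 1) → ℝ := Matrix.vecCons b z with hw
  have hwx : ∀ i, w i ≤ x' i := fun i => by
    refine Fin.cases ?_ (fun j => ?_) i
    · exact le_rfl
    · exact (hz2 j).le
  have hwm : StrictMono w := by
    rw [Fin.strictMono_iff_lt_succ]
    intro i
    exact lt_of_le_of_lt (hwx i.castSucc) (hz1 i)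
  have hwb : ∀ i, b ≤ w i := fun i => by
    have : w 0 = b := rfl
    rw [← this]; exact hwm.monotone (Fin.zero_le i)
  have hwW : ∀ i, W (w i) = 0 := fun i => by
    refine Fin.cases ?_ (fun j => ?_) i
    · exact hWb
    · exact hz3 j
  have hy : ∀ i : Fin (q + 1 + 1), ∃ y, w i < y ∧ (∀ j, i < j → y < w j) ∧ y ∉ F ∧ V k y = 0 := by
    intro i
    by_cases h : i.1 < q + 1
    · set i1 : Fin (q + 1 + 1) := ⟨i.1 + 1, by omega⟩ with hi1
      have hii : i < i1 := by rw [Fin.lt_def]; exact Nat.lt_succ_self _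
      obtain ⟨c, hc, hex⟩ := exists_isLocalExtr_Ioo (hwm hii) (hWon _ fun r hr =>
        lt_of_lt_of_le hb ((hwb i).trans hr.1)) (by rw [hwW, hwW])
      obtain ⟨h1, h2⟩ := hext c (lt_of_le_of_lt (hwb i) hc.1) hex
      refine ⟨c, hc.1, fun j hj => lt_of_lt_of_le hc.2 (hwm.monotone ?_), h1, h2⟩
      rw [Fin.le_def]
      exact Nat.succ_le_of_lt hj
    · obtain ⟨c, hc, hex⟩ := extr_half (hWon (Ici (w i)) fun r hr =>
        lt_of_lt_of_le hb ((hwb i).trans hr)) (hwW i) hWl
      obtain ⟨h1, h2⟩ := hext c (lt_of_le_of_lt (hwb i) hc) hex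
      refine ⟨c, hc, fun j hj => ?_, h1, h2⟩
      exfalso
      rw [Fin.lt_def] at hj
      omega
  choose y hy1 hy2 hy3 hy4 using hy
  exact hEZK k K L V P hE d D b F hT (q + 1 + 1) y (fun i j hij => (hy2 i j hij).trans (hy1 j))
    fun i => ⟨lt_of_le_of_lt (hwb i) (hy1 i), hy3 i, hy4 i⟩

end Pool.Agent.Helper30.OB
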